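import Mathlib
import Pool.Agent.H9.BlaschkeDefs
import Pool.Agent.H9.BlaschkeFinal

set_option autoImplicit false

namespace Pool.Agent.Results.MP_c7fc41_gt.Disproof

open Pool.Agent.H9.Blaschke

/-- In `𝔼⁴` there is a convex body `K` which is not centrally symmetric but whose Blaschke body is
homothetic to its central symmetral (`K = T × T` with `T` a triangle). -/
theorem result : ∃ K N : Set (E 4), IsConvexBody K ∧ IsBlaschkeBody K N ∧
    Homothetic N (centralSymmetral K) ∧ ¬ CentrallySymmetric K :=
  main

end Pool.Agent.Results.MP_c7fc41_gt.Disproof
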